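import Pool.Agent.N273.BR.Stm2
import Pool.Agent.R528.RM.Tails

/-!
# Few chosen integers in a window, starting from an event, sharp form (PROJECT BR, second round)
-/

set_option autoImplicit false

open MeasureTheory Filter Set
open scoped Topology ENNReal

namespace Pool.Agent.N31.BR

open Pool.Agent.R528.RM Pool.Agent.N417.SM Pool.Agent.N273.BR

theorem term {l u : ℝ} (hl : l ≤ 1 / 2) (hu0 : 0 ≤ u) {J m k : ℕ}
    (hJu : 1 ≤ J * u) (hkJ : k ≤ J) (hkm : k ≤ m) :
    (J.choose k : ℝ) * u ^ k * (1 - l) ^ (J - k) ≤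
      2 ^ m * (J * u) ^ m * Real.exp (-(J * l)) := by
  have h1 : (J.choose k : ℝ) * u ^ k ≤ (J * u) ^ m := by
    have h2 : (J.choose k : ℝ) ≤ (J : ℝ) ^ k := by exact_mod_cast Nat.choose_le_pow J k
    calc (J.choose k : ℝ) * u ^ k ≤ (J : ℝ) ^ k * u ^ k := by gcongr
      _ = (J * u) ^ k := (mul_pow _ _ _).symm
      _ ≤ (J * u) ^ m := pow_le_pow_right₀ hJu hkm
  have h3 : 1 - l ≤ Real.exp (-l) := by
    have := Real.add_one_le_exp (-l)
    linarith
  have h4 : Real.exp l ≤ 2 := by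
    have h5 : (1 : ℝ) / 2 ≤ Real.exp (-l) := by linarith
    rw [Real.exp_neg] at h5
    rw [le_inv_comm₀ (by norm_num) (Real.exp_pos _)] at h5
    norm_num at h5
    exact h5
  have h6 : (1 - l) ^ (J - k) ≤ 2 ^ m * Real.exp (-(J * l)) := by
    calc (1 - l) ^ (J - k) ≤ (Real.exp (-l)) ^ (J - k) :=
          pow_le_pow_left₀ (by linarith) h3 _
      _ = Real.exp l ^ k * Real.exp (-(J * l)) := by
          rw [← Real.exp_nat_mul, ← Real.exp_nat_mul, ← Real.exp_add, Nat.cast_sub hkJ]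
          congr 1
          ring
      _ ≤ 2 ^ k * Real.exp (-(J * l)) := by
          gcongr
      _ ≤ 2 ^ m * Real.exp (-(J * l)) := by
          gcongr
          norm_num
  have h7 : 0 ≤ (1 - l) ^ (J - k) := pow_nonneg (by linarith) _
  calc (J.choose k : ℝ) * u ^ k * (1 - l) ^ (J - k)
      ≤ (J * u) ^ m * (2 ^ m * Real.exp (-(J * l))) := by
        apply mul_le_mul h1 h6 h7
        positivity
    _ = _ := by ring

theorem cw2 : Pool.Agent.N273.BR.CW2 := by
  classical
  intro Ω m0 μ _ ℱ A hA V hV l u hl0 hl hu0 t J hbd m hJu C hC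
  have h1 : ((C ∩ {ω | cnt A t J ω < m + 1}) \ WV V t J) ⊆
      ⋃ k ∈ (Finset.range (J + 1)).filter (· < m + 1),
        ((C ∩ {ω | cnt A t J ω = k}) \ WV V t J) := by
    intro ω hω
    rw [mem_iUnion₂]
    refine ⟨cnt A t J ω, ?_, ⟨⟨hω.1.1, rfl⟩, hω.2⟩⟩
    rw [Finset.mem_filter, Finset.mem_range]
    exact ⟨Nat.lt_succ_of_le (cnt_le_len t J ω), hω.1.2⟩
  have hC0 : 0 ≤ μ.real C := measureReal_nonneg
  have h2 : μ.real ((C ∩ {ω | cnt A t J ω < m + 1}) \ WV V t J) ≤
      ∑ _k ∈ (Finset.range (J + 1)).filter (· < m + 1),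
        2 ^ m * (J * u) ^ m * Real.exp (-(J * l)) * μ.real C := by
    refine (measureReal_mono h1 (measure_ne_top _ _)).trans
      ((measureReal_biUnion_finset_le _ _).trans ?_)
    apply Finset.sum_le_sum
    intro k hk
    rw [Finset.mem_filter, Finset.mem_range] at hk
    refine (cnt_le (μ := μ) hA hV (by linarith) hu0 J t hbd k C hC).trans ?_
    exact mul_le_mul_of_nonneg_right
      (term hl hu0 hJu (Nat.lt_succ_iff.1 hk.1) (Nat.lt_succ_iff.1 hk.2)) hC0
  refine h2.trans ?_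
  rw [Finset.sum_const, nsmul_eq_mul]
  have h3 : (((Finset.range (J + 1)).filter (· < m + 1)).card : ℝ) ≤ m + 1 := by
    have h4 : ((Finset.range (J + 1)).filter (· < m + 1)).card ≤ (Finset.range (m + 1)).card :=
      Finset.card_le_card fun k hk => Finset.mem_range.2 (Finset.mem_filter.1 hk).2
    rw [Finset.card_range] at h4
    exact_mod_cast h4
  have h5 : 0 ≤ 2 ^ m * (J * u) ^ m * Real.exp (-(J * l)) * μ.real C := by positivity
  calc _ ≤ ((m : ℝ) + 1) * (2 ^ m * (J * u) ^ m * Real.exp (-(J * l)) * μ.real C) :=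
        mul_le_mul_of_nonneg_right h3 h5
    _ = _ := by ring

end Pool.Agent.N31.BR
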